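import Pool.Agent.Y552.CT.Stm3

/-!
# Functionals on an abelian group of finite torsion-free rank
-/

set_option autoImplicit false

namespace Pool.Agent.Y809.CT

open Module TensorProduct
open scoped nonZeroDivisors

universe u

variable {B : Type u} [AddCommGroup B]

theorem rank_aux (N : Type u) [AddCommGroup N] [Module ℚ N] (i : Module ℤ N) :
    Module.rank ℚ N = @Module.rank ℤ N _ _ i := by
  have h : i = AddCommGroup.toIntModule N := Subsingleton.elim _ _
  subst h
  exact IsLocalization.rank_eq ℚ ℤ⁰ le_rfl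

theorem rank_V (B : Type u) [AddCommGroup B] : Module.rank ℚ (ℚ ⊗[ℤ] B) = Module.rank ℤ B := by
  have h2 := IsLocalizedModule.rank_eq ℤ⁰ le_rfl (TensorProduct.mk ℤ ℚ B 1)
  exact (rank_aux (ℚ ⊗[ℤ] B) _).trans h2

/-- the extension of a functional to a rational functional -/
noncomputable def ex (f : B →+ ℂ) : (ℚ ⊗[ℤ] B) →ₗ[ℚ] ℂ :=
  LinearMap.liftBaseChange ℚ f.toIntLinearMap

theorem ex_tmul (f : B →+ ℂ) (a : ℚ) (b : B) : ex f (a ⊗ₜ[ℤ] b) = a • f b := by
  unfold ex
  rw [LinearMap.liftBaseChange_tmul]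
  rfl

theorem ex_add (f g : B →+ ℂ) (v : ℚ ⊗[ℤ] B) : ex (f + g) v = ex f v + ex g v := by
  induction v using TensorProduct.induction_on with
  | zero => simp
  | tmul a b => rw [ex_tmul, ex_tmul, ex_tmul, AddMonoidHom.add_apply, smul_add]
  | add x y hx hy => rw [map_add, map_add, map_add, hx, hy]; abel

theorem ex_smul (c : ℂ) (f : B →+ ℂ) (v : ℚ ⊗[ℤ] B) : ex (c • f) v = c * ex f v := by
  induction v using TensorProduct.induction_on with
  | zero => simp
  | tmul a b =>
    rw [ex_tmul, ex_tmul]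
    show a • (c • f b) = c * (a • f b)
    rw [smul_eq_mul, mul_smul_comm]
  | add x y hx hy => rw [map_add, map_add, hx, hy, mul_add]

/-- the extension as a linear map -/
noncomputable def EX (B : Type u) [AddCommGroup B] : (B →+ ℂ) →ₗ[ℂ] ((ℚ ⊗[ℤ] B) →ₗ[ℚ] ℂ) where
  toFun f := ex f
  map_add' f g := LinearMap.ext fun v => ex_add f g v
  map_smul' c f := LinearMap.ext fun v => ex_smul c f v

theorem EX_inj : Function.Injective (EX B) := by
  intro f g h
  ext b
  have h1 := congrArg (fun F : (ℚ ⊗[ℤ] B) →ₗ[ℚ] ℂ => F (1 ⊗ₜ[ℤ] b)) h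
  have h2 : ex f (1 ⊗ₜ[ℤ] b) = ex g (1 ⊗ₜ[ℤ] b) := h1
  rwa [ex_tmul, ex_tmul, one_smul, one_smul] at h2

theorem rk : Pool.Agent.Y552.CT.S_RK.{u} := by
  intro B _ m hm
  have hr : Module.rank ℚ (ℚ ⊗[ℤ] B) ≤ (m : Cardinal.{u}) := by rw [rank_V]; exact hm
  have hfin : Module.Finite ℚ (ℚ ⊗[ℤ] B) :=
    Module.rank_lt_aleph0_iff.1 (lt_of_le_of_lt hr (Cardinal.natCast_lt_aleph0))
  have hfr : Module.finrank ℚ (ℚ ⊗[ℤ] B) ≤ m := Module.finrank_le_of_rank_le hr
  have hfd : FiniteDimensional ℂ (B →+ ℂ) := FiniteDimensional.of_injective (EX B) EX_inj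
  refine ⟨hfd, ?_, ?_, ?_⟩
  · refine (LinearMap.finrank_le_finrank_of_injective EX_inj).trans ?_
    rw [Module.finrank_linearMap, Module.finrank_self, mul_one]
    exact hfr
  · intro b hb
    have h1 : (TensorProduct.mk ℤ ℚ B 1) b = 0 := by
      show (1 : ℚ) ⊗ₜ[ℤ] b = 0
      refine (Module.forall_dual_apply_eq_zero_iff ℚ _).1 fun φ => ?_
      let f : B →+ ℂ :=
        { toFun := fun x => ((φ (1 ⊗ₜ[ℤ] x) : ℚ) : ℂ)
          map_zero' := by simp
          map_add' := fun x y => by
            rw [TensorProduct.tmul_add, map_add]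
            push_cast
            rfl }
      have h2 : ((φ (1 ⊗ₜ[ℤ] b) : ℚ) : ℂ) = 0 := hb f
      exact_mod_cast h2
    obtain ⟨s, hs⟩ := (IsLocalizedModule.eq_zero_iff ℤ⁰ (TensorProduct.mk ℤ ℚ B 1)).1 h1
    have hs0 : (s : ℤ) ≠ 0 := nonZeroDivisors.ne_zero s.2
    refine ⟨(s : ℤ).natAbs, Int.natAbs_pos.2 hs0, ?_⟩
    have h3 : (s : ℤ) • b = 0 := hs
    rcases Int.natAbs_eq (s : ℤ) with h4 | h4
    · rw [h4, natCast_zsmul] at h3
      exact h3
    · rw [h4, neg_smul, natCast_zsmul, neg_eq_zero] at h3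
      exact h3
  · intro τ
    set T : Module.End ℚ (ℚ ⊗[ℤ] B) := LinearMap.baseChange ℚ τ.toIntLinearMap with hT
    set P₀ : Polynomial ℚ := T.charpoly with hP₀
    have hP₀m : P₀.Monic := LinearMap.charpoly_monic T
    set P : Polynomial ℤ := IsLocalization.integerNormalization ℤ⁰ P₀ with hP
    obtain ⟨s, hs, hPs⟩ := IsLocalization.integerNormalization_spec ℤ⁰ P₀
    have hs0 : (s : ℤ) ≠ 0 := nonZeroDivisors.ne_zero hs
    have hmap : P.map (algebraMap ℤ ℚ) = Polynomial.C (s : ℚ) * P₀ := by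
      rw [hP, hPs, ← Polynomial.smul_eq_C_mul]
      exact (Int.cast_smul_eq_zsmul ℚ s P₀).symm
    have hsq : (s : ℚ) ≠ 0 := by exact_mod_cast hs0
    have hinj : Function.Injective (algebraMap ℤ ℚ) := Int.cast_injective
    refine ⟨P, ?_, ?_, ?_⟩
    · intro h
      rw [h, Polynomial.map_zero] at hmap
      rcases mul_eq_zero.1 hmap.symm with h1 | h1
      · exact hsq (Polynomial.C_eq_zero.1 h1)
      · exact hP₀m.ne_zero h1
    · rw [← Polynomial.natDegree_map_eq_of_injective hinj P, hmap,
        Polynomial.natDegree_C_mul hsq, hP₀, LinearMap.charpoly_natDegree]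
      exact hfr
    · intro c f hf hc
      have h1 : ∀ v : ℚ ⊗[ℤ] B, ex f (T v) = c * ex f v := by
        intro v
        induction v using TensorProduct.induction_on with
        | zero => simp
        | tmul a b =>
          rw [hT, LinearMap.baseChange_tmul, ex_tmul, ex_tmul]
          show a • f (τ b) = _
          rw [hc, mul_smul_comm]
        | add x y hx hy => rw [map_add, map_add, map_add, hx, hy, mul_add]
      have h2 : ∀ (Q : Polynomial ℚ) (v : ℚ ⊗[ℤ] B),
          ex f (Polynomial.aeval T Q v) = Polynomial.aeval c Q * ex f v := by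
        intro Q v
        induction Q using Polynomial.induction_on' with
        | add p q hp hq =>
          rw [map_add, LinearMap.add_apply, map_add, hp, hq, map_add, add_mul]
        | monomial n a =>
          rw [Polynomial.aeval_monomial, Polynomial.aeval_monomial, Module.End.mul_apply,
            Module.algebraMap_end_apply, map_smul]
          have h3 : ∀ k : ℕ, ex f ((T ^ k) v) = c ^ k * ex f v := by
            intro k
            induction k with
            | zero => simp
            | succ k ih => rw [pow_succ', Module.End.mul_apply, h1, ih, pow_succ']; ring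
          rw [h3, Algebra.smul_def, mul_assoc]
      have h4 : Polynomial.aeval T P₀ = 0 := LinearMap.aeval_self_charpoly T
      have hne : ∃ b, f b ≠ 0 := by
        by_contra hcon
        push Not at hcon
        exact hf (AddMonoidHom.ext hcon)
      obtain ⟨b, hb⟩ := hne
      have h5 := h2 P₀ (1 ⊗ₜ[ℤ] b)
      rw [h4, LinearMap.zero_apply, map_zero, ex_tmul, one_smul] at h5
      have h6 : Polynomial.aeval c P₀ = 0 := (mul_eq_zero.1 h5.symm).resolve_right hb
      have h7 : Polynomial.aeval c P = Polynomial.aeval c (P.map (algebraMap ℤ ℚ)) := by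
        rw [Polynomial.aeval_map_algebraMap]
      rw [h7, hmap, map_mul, h6, mul_zero]

end Pool.Agent.Y809.CT
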